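import Mathlib
import Pool.Agent.H892.ZL.Stm

/-! # Decomposable vectors in the chart -/

set_option autoImplicit false

namespace Pool.Agent.H922.ZL

open Pool.Agent.H892.ZL

theorem eq_aff {F : Type} [Field F] (v : Fin 6 → F) (x y : Fin 3 → F)
    (h0 : v 0 = x 0 * y 1 - x 1 * y 0) (h1 : v 1 = x 0 * y 2 - x 2 * y 0) (h2 : v 2 = - y 0)
    (h3 : v 3 = x 1 * y 2 - x 2 * y 1) (h4 : v 4 = - y 1) (h5 : v 5 = - y 2) : v = aff x y := by
  funext i
  fin_cases i
  · show v 0 = x 0 * y 1 - x 1 * y 0
    exact h0
  · show v 1 = x 0 * y 2 - x 2 * y 0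
    exact h1
  · show v 2 = x 0 * 0 - 1 * y 0
    rw [h2]
    ring
  · show v 3 = x 1 * y 2 - x 2 * y 1
    exact h3
  · show v 4 = x 1 * 0 - 1 * y 1
    rw [h4]
    ring
  · show v 5 = x 2 * 0 - 1 * y 2
    rw [h5]
    ring

theorem t_DECA : S_DECA := by
  intro F _ v hv hq
  by_cases h2 : v 2 = 0
  · by_cases h4 : v 4 = 0
    · have h5 : v 5 ≠ 0 := by
        rcases hv with h | h | h
        · exact absurd h2 h
        · exact absurd h4 h
        · exact h
      refine ⟨![- v 1 / v 5, - v 3 / v 5, 0], ![- v 2, - v 4, - v 5], ?_, ?_⟩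
      · intro h
        have := congrFun h 2
        exact h5 (neg_eq_zero.1 this)
      · have h0 : v 0 = 0 := by
          have h6 : v 0 * v 5 = 0 := by
            rw [h2, h4] at hq
            linear_combination hq
          exact (mul_eq_zero.1 h6).resolve_right h5
        apply eq_aff
        · show v 0 = (- v 1 / v 5) * (- v 4) - (- v 3 / v 5) * (- v 2)
          rw [h0, h2, h4]
          ring
        · show v 1 = (- v 1 / v 5) * (- v 5) - 0 * (- v 2)
          field_simp
          ring
        · show v 2 = - (- v 2)
          ring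
        · show v 3 = (- v 3 / v 5) * (- v 5) - 0 * (- v 4)
          field_simp
          ring
        · show v 4 = - (- v 4)
          ring
        · show v 5 = - (- v 5)
          ring
    · refine ⟨![- v 0 / v 4, 0, v 3 / v 4], ![- v 2, - v 4, - v 5], ?_, ?_⟩
      · intro h
        have := congrFun h 1
        exact h4 (neg_eq_zero.1 this)
      · have h1 : v 1 = v 0 * v 5 / v 4 := by
          rw [eq_div_iff h4]
          rw [h2] at hq
          linear_combination -hq
        apply eq_aff
        · show v 0 = (- v 0 / v 4) * (- v 4) - 0 * (- v 2)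
          field_simp
          ring
        · show v 1 = (- v 0 / v 4) * (- v 5) - (v 3 / v 4) * (- v 2)
          rw [h1, h2]
          ring
        · show v 2 = - (- v 2)
          ring
        · show v 3 = 0 * (- v 5) - (v 3 / v 4) * (- v 4)
          field_simp
          ring
        · show v 4 = - (- v 4)
          ring
        · show v 5 = - (- v 5)
          ring
  · refine ⟨![0, v 0 / v 2, v 1 / v 2], ![- v 2, - v 4, - v 5], ?_, ?_⟩
    · intro h
      have := congrFun h 0
      exact h2 (neg_eq_zero.1 this)
    · have h3 : v 3 = (v 1 * v 4 - v 0 * v 5) / v 2 := by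
        rw [eq_div_iff h2]
        linear_combination hq
      apply eq_aff
      · show v 0 = 0 * (- v 4) - (v 0 / v 2) * (- v 2)
        field_simp
        ring
      · show v 1 = 0 * (- v 5) - (v 1 / v 2) * (- v 2)
        field_simp
        ring
      · show v 2 = - (- v 2)
        ring
      · show v 3 = (v 0 / v 2) * (- v 5) - (v 1 / v 2) * (- v 4)
        rw [h3]
        ring
      · show v 4 = - (- v 4)
        ring
      · show v 5 = - (- v 5)
        ring

end Pool.Agent.H922.ZL
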